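import Pool.Agent.H65.NV.PTargets

/-!
# EMV: sums of smooth functions over an ideal (helper68, board nvk_modules)
-/

set_option autoImplicit false

open MeasureTheory Set Filter NumberField NumberField.InfinitePlace Pool.Agent.H65.CM4
  Pool.Agent.H61.NVK Pool.Agent.H89.NV Pool.Agent.H65.NV
open scoped Real

namespace Pool.Agent.H68.NVP_EMV

section

variable {k : Type} [Field k]

lemma line {m : ℕ} {L : ℝ} {φ : (Pl k → ℝ) → ℝ} (hφ : DB m L φ) (p e : Pl k → ℝ) (ρ : ℝ)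
    (hρ : 0 < ρ) (he : ∀ v, |e v| ≤ ρ) :
    ContDiff ℝ m (fun s : ℝ => φ (p + s • e)) ∧
      |iteratedDeriv m (fun s : ℝ => φ (p + s • e)) 0| ≤ ρ ^ m * L := by
  have he' : ∀ v, |(ρ⁻¹ • e) v| ≤ 1 := by
    intro v
    rw [Pi.smul_apply, smul_eq_mul, abs_mul, abs_of_pos (inv_pos.2 hρ), inv_mul_le_iff₀ hρ,
      mul_one]
    exact he v
  have hsm := hφ.sm p (ρ⁻¹ • e) he'
  have hbd := hφ.bd p (ρ⁻¹ • e) he'
  have heq : (fun s : ℝ => φ (p + s • e)) =
      fun s : ℝ => (fun u : ℝ => φ (p + u • (ρ⁻¹ • e))) (ρ * s) := by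
    funext s
    have : (ρ * s) • (ρ⁻¹ • e) = s • e := by
      rw [smul_smul]
      congr 1
      field_simp
    simp only [this]
  rw [heq]
  constructor
  · exact hsm.comp (contDiff_const.mul contDiff_id)
  · rw [iteratedDeriv_comp_const_mul hsm ρ]
    simp only [mul_zero]
    rw [abs_mul, abs_pow, abs_of_pos hρ]
    exact mul_le_mul_of_nonneg_left hbd (by positivity)

lemma tsum_split (I J' : Ideal (𝓞 k)) (hJ : J' ≤ I) (R : Finset (𝓞 k)) (hRI : ∀ r ∈ R, r ∈ I)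
    (hR : ∀ x ∈ I, ∃! r, r ∈ R ∧ x - r ∈ J') (F : 𝓞 k → ℝ)
    (hfin : {x : 𝓞 k | x ∈ I ∧ F x ≠ 0}.Finite) (d1 : DecidablePred (· ∈ I))
    (d2 : DecidablePred (· ∈ J')) :
    (∑' x, if x ∈ I then F x else 0) = ∑ r ∈ R, ∑' x, if x - r ∈ J' then F x else 0 := by
  have hsum : ∀ r ∈ R, Summable (fun x => if x - r ∈ J' then F x else 0) := by
    intro r hr
    refine summable_of_hasFiniteSupport (hfin.subset ?_)
    intro x hx
    rw [Function.mem_support] at hx
    by_cases h : x - r ∈ J'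
    · rw [if_pos h] at hx
      refine ⟨?_, hx⟩
      have := I.add_mem (hJ h) (hRI r hr)
      rwa [sub_add_cancel] at this
    · rw [if_neg h] at hx
      exact absurd rfl hx
  rw [← Summable.tsum_finsetSum hsum]
  congr 1
  funext x
  by_cases hx : x ∈ I
  · rw [if_pos hx]
    obtain ⟨r, ⟨hr1, hr2⟩, hr3⟩ := hR x hx
    rw [Finset.sum_eq_single_of_mem r hr1, if_pos hr2]
    intro b hb hbr
    rw [if_neg]
    intro h
    exact hbr (hr3 b ⟨hb, h⟩)
  · rw [if_neg hx]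
    symm
    apply Finset.sum_eq_zero
    intro r hr
    rw [if_neg]
    intro h
    apply hx
    have := I.add_mem (hJ h) (hRI r hr)
    rwa [sub_add_cancel] at this

lemma tsum_coset {ι : Type} [Fintype ι] (J' : Ideal (𝓞 k)) (w : ι → 𝓞 k) (r : 𝓞 k)
    (hw : ∀ i, w i ∈ J') (hb : ∀ y : 𝓞 k, y ∈ J' → ∃! z : ι → ℤ, y = ∑ i, (z i : 𝓞 k) * w i)
    (F : 𝓞 k → ℝ) (d2 : DecidablePred (· ∈ J')) :
    (∑' x, if x - r ∈ J' then F x else 0) =
      ∑' z : ι → ℤ, F (r + ∑ i, (z i : 𝓞 k) * w i) := by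
  have hmem : ∀ z : ι → ℤ, ∑ i, (z i : 𝓞 k) * w i ∈ J' := fun z =>
    Ideal.sum_mem _ fun i _ => J'.mul_mem_left _ (hw i)
  have hinj : Function.Injective (fun z : ι → ℤ => r + ∑ i, (z i : 𝓞 k) * w i) := by
    intro z z' h
    have h1 : ∑ i, (z i : 𝓞 k) * w i = ∑ i, (z' i : 𝓞 k) * w i := add_left_cancel h
    obtain ⟨z0, -, hz0⟩ := hb _ (hmem z)
    rw [hz0 z rfl, hz0 z' h1]
  have h1 := hinj.tsum_eq (f := fun x => if x - r ∈ J' then F x else 0) (by
    intro x hx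
    rw [Function.mem_support] at hx
    by_cases h : x - r ∈ J'
    · obtain ⟨z, hz, -⟩ := hb _ h
      refine ⟨z, ?_⟩
      simp only
      rw [← hz]
      ring
    · rw [if_neg h] at hx
      exact absurd rfl hx)
  rw [← h1]
  congr 1
  funext z
  rw [add_sub_cancel_left, if_pos (hmem z)]

end

section

variable {k : Type} [Field k] [NumberField k] [IsTotallyReal k]

lemma em_lin {ι : Type} [Fintype ι] (w : ι → 𝓞 k) (r : 𝓞 k) (z : ι → ℤ) :
    em (r + ∑ i, (z i : 𝓞 k) * w i) = em r + ∑ i, (z i : ℝ) • em (w i) := by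
  funext v
  simp only [Pi.add_apply, Finset.sum_apply, Pi.smul_apply, smul_eq_mul]
  show rv v (algebraMap (𝓞 k) k (r + ∑ i, (z i : 𝓞 k) * w i)) =
    rv v (algebraMap (𝓞 k) k r) + ∑ i, (z i : ℝ) * rv v (algebraMap (𝓞 k) k (w i))
  simp only [map_add, map_sum, map_mul, map_intCast]

/-- the count of the integral points -/
lemma count_pts (hLCU : T_LCU k) (htop : nm (⊤ : Ideal (𝓞 k)) = 1) {ι : Type} [Fintype ι]
    (J' : Ideal (𝓞 k)) (w : ι → 𝓞 k) (hw : ∀ i, w i ∈ J')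
    (hb : ∀ y : 𝓞 k, y ∈ J' → ∃! z : ι → ℤ, y = ∑ i, (z i : 𝓞 k) * w i)
    (B : ℝ) (hB : 0 ≤ B) (c : Pl k → ℝ) (t : ι → ℝ) (s : Finset (ι → ℤ))
    (hs : ∀ z ∈ s, ∀ v, |c v + ∑ i, (t i + z i) * Pool.Agent.H89.NV.em (w i) v| ≤ B) :
    (s.card : ℝ) ≤ (2 * B + 2) ^ dg k := by
  classical
  have hmem : ∀ z : ι → ℤ, ∑ i, (z i : 𝓞 k) * w i ∈ J' := fun z =>
    Ideal.sum_mem _ fun i _ => J'.mul_mem_left _ (hw i)
  have hinj : Function.Injective (fun z : ι → ℤ => ∑ i, (z i : 𝓞 k) * w i) := by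
    intro z z' h
    obtain ⟨z0, -, hz0⟩ := hb _ (hmem z)
    rw [hz0 z rfl, hz0 z' h]
  obtain ⟨hf, hn⟩ := hLCU ⊤ (fun v => -(c v + ∑ i, t i * Pool.Agent.H89.NV.em (w i) v)) B
    (by
      intro h
      rw [h] at htop
      unfold nm at htop
      rw [Ideal.absNorm_bot] at htop
      norm_num at htop) hB
  rw [htop, Real.one_rpow, div_one] at hn
  refine le_trans ?_ hn
  rw [← Finset.card_image_of_injective s hinj]
  rw [← Set.ncard_coe_finset]
  refine Nat.cast_le.2 (Set.ncard_le_ncard ?_ hf)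
  intro y hy
  rw [Finset.mem_coe, Finset.mem_image] at hy
  obtain ⟨z, hz, rfl⟩ := hy
  refine ⟨Submodule.mem_top, fun v => ?_⟩
  have h1 := hs z hz v
  have h2 := congrFun (em_lin w 0 z) v
  have h3 : Pool.Agent.H89.NV.em (0 : 𝓞 k) v = 0 := by
    show rv v (algebraMap (𝓞 k) k 0) = 0
    rw [map_zero, map_zero]
  rw [zero_add, Pi.add_apply, h3, zero_add, Finset.sum_apply] at h2
  rw [h2]
  have h4 : (∑ i, ((z i : ℝ) • Pool.Agent.H89.NV.em (w i)) v) -
      -(c v + ∑ i, t i * Pool.Agent.H89.NV.em (w i) v) =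
      c v + ∑ i, (t i + z i) * Pool.Agent.H89.NV.em (w i) v := by
    simp only [Pi.smul_apply, smul_eq_mul, add_mul, Finset.sum_add_distrib]
    ring
  rw [h4]
  exact h1

end

variable (k : Type) [Field k] [NumberField k] [IsTotallyReal k]

theorem pf_EMV (hEMZ : T_EMZ) (hEMS : T_EMS k) (hRSF : T_RSF k) (hLCU : T_LCU k)
    (hSHE : T_SHE k) (hDET : T_DET k) (hEMB : T_EMB k) : T_EMV k := by
  classical
  intro m hm
  obtain ⟨C1, hC1, hshe⟩ := hSHE
  obtain ⟨ι, i1, i2, ω, C2, hC2, hω, hdet⟩ := hDET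
  obtain ⟨hcard, hdg, hdk, -, -, -, -, -, -, -, hnmI, -⟩ := hEMB
  obtain ⟨hema, -, -, -, -, -, hnms, -, -, htop, -⟩ := hEMS
  refine ⟨C1 ^ dg k * (Fintype.card ι + 1) * 2 ^ dg k * (C1 * C2) ^ m, by positivity, ?_⟩
  intro I φ a β B L hI hB hL hsupp hDB
  obtain ⟨x0, hx0I, hx00, hx0b⟩ := hshe I hI
  obtain ⟨hbas, hcomp, hint⟩ := hdet x0 hx00
  obtain ⟨J, hJ⟩ := Ideal.dvd_span_singleton.2 hx0I
  have hJI : Ideal.span {x0} = J * I := by rw [hJ, mul_comm]
  have hspan0 : Ideal.span {x0} ≠ ⊥ := by rwa [Ne, Ideal.span_singleton_eq_bot]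
  have hJ0 : J ≠ ⊥ := by
    rintro rfl
    exact hspan0 (by rw [hJI, Ideal.bot_mul])
  have hnmI1 : 1 ≤ nm I := (hnmI I hI).1
  have hnmI0 : 0 < nm I := by linarith
  have hnmJ1 : 1 ≤ nm J := (hnmI J hJ0).1
  have hnmmul : nm (J * I) = nm J * nm I := by
    unfold nm
    rw [map_mul]
    push_cast
    rfl
  have hroot : (nm I ^ (1 / (dg k : ℝ))) ^ dg k = nm I := by
    rw [one_div]
    exact Real.rpow_inv_natCast_pow hnmI0.le hdg.ne'
  have hroot0 : 0 < nm I ^ (1 / (dg k : ℝ)) := Real.rpow_pos_of_pos hnmI0 _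
  have hnmJ : nm J ≤ C1 ^ dg k := by
    have h1 : nm (Ideal.span {x0}) ≤ C1 ^ dg k * nm I := by
      rw [hnms]
      calc ∏ v, |Pool.Agent.H89.NV.em x0 v| ≤ ∏ v : Pl k, C1 * nm I ^ (1 / (dg k : ℝ)) :=
            Finset.prod_le_prod (fun v _ => abs_nonneg _) fun v _ => hx0b v
        _ = C1 ^ dg k * nm I := by
            rw [Finset.prod_const, Finset.card_univ, hcard, mul_pow, hroot]
    rw [hJI, hnmmul] at h1
    exact le_of_mul_le_mul_right h1 hnmI0
  rw [hJI] at hint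
  have hw : ∀ i, x0 * ω i ∈ J * I := by
    intro i
    rw [← hJI]
    exact Ideal.mul_mem_right _ _ (Ideal.mem_span_singleton_self x0)
  have hbas' : ∀ y : 𝓞 k, y ∈ J * I → ∃! z : ι → ℤ, y = ∑ i, (z i : 𝓞 k) * (x0 * ω i) := by
    intro y hy
    rw [← hJI] at hy
    exact hbas y hy
  have hJle : J * I ≤ I := Ideal.mul_le_right
  obtain ⟨huniq, hcardR, -⟩ := hRSF J I hJ0 hI ((Rs (J * I)).filter (fun x => x ∈ I))
    (fun x => Finset.mem_filter)
  set R : Finset (𝓞 k) := (Rs (J * I)).filter (fun x => x ∈ I) with hRdef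
  have hRI : ∀ r ∈ R, r ∈ I := fun r hr => (Finset.mem_filter.1 hr).2
  have hfin : {x : 𝓞 k | x ∈ I ∧ φ (Pool.Agent.H89.NV.em x + β) ≠ 0}.Finite := by
    refine (hLCU I (fun v => a v - β v) B hI hB).1.subset ?_
    rintro x ⟨hx1, hx2⟩
    refine ⟨hx1, fun v => ?_⟩
    by_contra hcon
    apply hx2
    apply hsupp
    refine ⟨v, ?_⟩
    rw [Pi.add_apply]
    have : Pool.Agent.H89.NV.em x v + β v - a v =
        Pool.Agent.H89.NV.em x v - (a v - β v) := by ring
    rw [this]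
    exact not_le.1 hcon
  set ρ : ℝ := C1 * C2 * nm I ^ (1 / (dg k : ℝ)) with hρdef
  have hρ : 0 < ρ := by positivity
  -- the key estimate
  have key : ∀ r : 𝓞 k, |(∑' z : ι → ℤ, φ (Pool.Agent.H89.NV.em
      (r + ∑ i, (z i : 𝓞 k) * (x0 * ω i)) + β)) -
      (1 / (Real.sqrt (dk k) * nm (J * I))) * ∫ u, φ u| ≤
      Fintype.card ι * ((2 * B + 2) ^ dg k * (ρ ^ m * L)) := by
    intro r
    have h1 := hEMZ ι m ⌊(2 * B + 2) ^ dg k⌋₊
      (fun t => φ ((Pool.Agent.H89.NV.em r + β) +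
        ∑ i, t i • Pool.Agent.H89.NV.em (x0 * ω i)))
      {t : ι → ℝ | ∀ v, |(Pool.Agent.H89.NV.em r + β - a) v +
        ∑ i, t i * Pool.Agent.H89.NV.em (x0 * ω i) v| ≤ B} (ρ ^ m * L) hm (by positivity)
      (hDB.cont.comp (continuous_const.add (continuous_finsetSum _ fun i _ =>
        (continuous_apply i).smul continuous_const)))
      (hcomp _ B)
      (by
        intro t ht
        rw [Set.mem_ofPred_eq] at ht
        push Not at ht
        obtain ⟨v, hv⟩ := ht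
        refine hsupp _ ⟨v, ?_⟩
        have h2 : ((Pool.Agent.H89.NV.em r + β) +
            ∑ i, t i • Pool.Agent.H89.NV.em (x0 * ω i)) v - a v =
            (Pool.Agent.H89.NV.em r + β - a) v +
              ∑ i, t i * Pool.Agent.H89.NV.em (x0 * ω i) v := by
          simp only [Pi.add_apply, Pi.sub_apply, Finset.sum_apply, Pi.smul_apply, smul_eq_mul]
          ring
        rw [h2]
        exact hv)
      (by
        intro t s hs
        refine Nat.le_floor ?_
        exact count_pts hLCU htop (J * I) (fun i => x0 * ω i) hw hbas' B hB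
          (Pool.Agent.H89.NV.em r + β - a) t s (fun z hz v => hs z hz v))
      (by
        intro t j
        have h3 : (fun s : ℝ => φ ((Pool.Agent.H89.NV.em r + β) +
            ∑ i, (t + s • (Pi.single j (1 : ℝ) : ι → ℝ)) i •
              Pool.Agent.H89.NV.em (x0 * ω i))) =
            fun s : ℝ => φ (((Pool.Agent.H89.NV.em r + β) +
              ∑ i, t i • Pool.Agent.H89.NV.em (x0 * ω i)) +
              s • Pool.Agent.H89.NV.em (x0 * ω j)) := by
          funext s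
          have h4 : ∀ i, (t + s • (Pi.single j (1 : ℝ) : ι → ℝ)) i •
              Pool.Agent.H89.NV.em (x0 * ω i) = t i • Pool.Agent.H89.NV.em (x0 * ω i) +
              (if i = j then s • Pool.Agent.H89.NV.em (x0 * ω i) else 0) := by
            intro i
            by_cases hij : i = j
            · subst hij
              rw [Pi.add_apply, Pi.smul_apply, Pi.single_eq_same, smul_eq_mul, mul_one,
                add_smul, if_pos rfl]
            · rw [Pi.add_apply, Pi.smul_apply, Pi.single_eq_of_ne hij, smul_zero, add_zero,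
                if_neg hij, add_zero]
          have h9 : ∑ i, (t + s • (Pi.single j (1 : ℝ) : ι → ℝ)) i •
              Pool.Agent.H89.NV.em (x0 * ω i) =
              ∑ i, t i • Pool.Agent.H89.NV.em (x0 * ω i) +
                s • Pool.Agent.H89.NV.em (x0 * ω j) := by
            rw [Finset.sum_congr rfl fun i _ => h4 i, Finset.sum_add_distrib,
              Finset.sum_ite_eq' Finset.univ j, if_pos (Finset.mem_univ j)]
          rw [h9, ← add_assoc]
        rw [h3]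
        refine line hDB _ _ ρ hρ fun v => ?_
        rw [(hema x0 (ω j)).2.1, Pi.mul_apply, abs_mul]
        calc |Pool.Agent.H89.NV.em x0 v| * |Pool.Agent.H89.NV.em (ω j) v|
            ≤ (C1 * nm I ^ (1 / (dg k : ℝ))) * C2 :=
              mul_le_mul (hx0b v) (hω j v) (abs_nonneg _) (by positivity)
          _ = ρ := by rw [hρdef]; ring)
    have h5 : ∀ z : ι → ℤ, φ ((Pool.Agent.H89.NV.em r + β) +
        ∑ i, (fun i => (z i : ℝ)) i • Pool.Agent.H89.NV.em (x0 * ω i)) =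
        φ (Pool.Agent.H89.NV.em (r + ∑ i, (z i : 𝓞 k) * (x0 * ω i)) + β) := by
      intro z
      rw [em_lin]
      congr 1
      ring
    have h6 : (∑' z : ι → ℤ, φ ((Pool.Agent.H89.NV.em r + β) +
        ∑ i, (fun i => (z i : ℝ)) i • Pool.Agent.H89.NV.em (x0 * ω i))) =
        ∑' z : ι → ℤ, φ (Pool.Agent.H89.NV.em
          (r + ∑ i, (z i : 𝓞 k) * (x0 * ω i)) + β) := by
      congr 1
      funext z
      exact h5 z
    have h7 := hint φ (Pool.Agent.H89.NV.em r + β)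
    rw [h7] at h1
    rw [← h6]
    refine h1.trans ?_
    have h8 : ((⌊(2 * B + 2) ^ dg k⌋₊ : ℕ) : ℝ) ≤ (2 * B + 2) ^ dg k :=
      Nat.floor_le (by positivity)
    gcongr
  have hsplit := tsum_split I (J * I) hJle R hRI huniq
    (fun x => φ (Pool.Agent.H89.NV.em x + β)) hfin (fun x => Classical.propDecidable _)
    (fun x => Classical.propDecidable _)
  have hsplit2 : (∑' x : 𝓞 k, if x ∈ I then φ (Pool.Agent.H89.NV.em x + β) else 0) =
      ∑ r ∈ R, ∑' z : ι → ℤ, φ (Pool.Agent.H89.NV.em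
        (r + ∑ i, (z i : 𝓞 k) * (x0 * ω i)) + β) := by
    refine hsplit.trans (Finset.sum_congr rfl fun r _ => ?_)
    exact tsum_coset (J * I) (fun i => x0 * ω i) r hw hbas'
      (fun x => φ (Pool.Agent.H89.NV.em x + β)) _
  rw [hsplit2]
  have hdkp : (0 : ℝ) < Real.sqrt (dk k) := Real.sqrt_pos.2 (by exact_mod_cast hdk)
  have hmain : (1 / (Real.sqrt (dk k) * nm I)) * ∫ u, φ u =
      ∑ r ∈ R, (1 / (Real.sqrt (dk k) * nm (J * I))) * ∫ u, φ u := by
    rw [Finset.sum_const, nsmul_eq_mul, hcardR, hnmmul]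
    have hJp : 0 < nm J := by linarith
    field_simp
  rw [hmain, ← Finset.sum_sub_distrib]
  refine (Finset.abs_sum_le_sum_abs _ _).trans ?_
  refine (Finset.sum_le_sum fun r _ => key r).trans ?_
  rw [Finset.sum_const, nsmul_eq_mul, hcardR]
  have hpow : ρ ^ m = (C1 * C2) ^ m * nm I ^ ((m : ℝ) / dg k) := by
    rw [hρdef, mul_pow, ← Real.rpow_natCast (nm I ^ (1 / (dg k : ℝ))) m,
      ← Real.rpow_mul hnmI0.le]
    congr 2
    ring
  rw [hpow]
  have h2B : (2 * B + 2) ^ dg k = 2 ^ dg k * (1 + B) ^ dg k := by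
    rw [← mul_pow]
    congr 1
    ring
  rw [h2B]
  have hrp : 0 < nm I ^ ((m : ℝ) / dg k) := Real.rpow_pos_of_pos hnmI0 _
  calc nm J * ((Fintype.card ι : ℝ) * (2 ^ dg k * (1 + B) ^ dg k *
        ((C1 * C2) ^ m * nm I ^ ((m : ℝ) / dg k) * L)))
      ≤ C1 ^ dg k * (((Fintype.card ι : ℝ) + 1) * (2 ^ dg k * (1 + B) ^ dg k *
        ((C1 * C2) ^ m * nm I ^ ((m : ℝ) / dg k) * L))) := by
        gcongr
        linarith
    _ = C1 ^ dg k * (Fintype.card ι + 1) * 2 ^ dg k * (C1 * C2) ^ m *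
        nm I ^ ((m : ℝ) / dg k) * (1 + B) ^ dg k * L := by ring

end Pool.Agent.H68.NVP_EMV
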